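import Mathlib
import Pool.Agent.H147R3.KK.One
set_option autoImplicit false

/-! Generic dilations of Kakeya families: one-dimensional and box estimates. -/

namespace Pool.Agent.H147R3.KH

open MeasureTheory Set Metric
open scoped ENNReal

lemma sub1 (a b t δ τ L : ℝ) (hδ : 0 < δ) (hτ : 0 < τ) (ht : τ ≤ |t|) (hL : 0 < L) :
    ∃ x : ℝ, {m : ℝ | m ∈ Icc (-L) L ∧ |m * b + t * a| ≤ 2 * δ} ⊆
      Icc x (x + 16 * L / (1 + τ / δ * |a|)) := by
  set y : ℝ := τ / δ * |a| with hy
  have hy0 : 0 ≤ y := by positivity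
  have hyd : τ * |a| = y * δ := by rw [hy]; field_simp
  rcases le_or_gt (1 + y) 8 with h8 | h8
  · refine ⟨-L, ?_⟩
    intro m hm
    refine ⟨hm.1.1, hm.1.2.trans ?_⟩
    have : 2 * L ≤ 16 * L / (1 + y) := by
      rw [le_div_iff₀ (by positivity)]
      nlinarith
    linarith
  have hapos : 0 < |a| := by
    by_contra hcon
    have : |a| = 0 := le_antisymm (not_lt.1 hcon) (abs_nonneg _)
    rw [hy, this] at h8
    norm_num at h8
  rcases le_or_gt (τ * |a| / (2 * L)) |b| with hb | hb
  · have hbpos : 0 < |b| := lt_of_lt_of_le (by positivity) hb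
    have hb0 : b ≠ 0 := abs_pos.1 hbpos
    refine ⟨-(t * a) / b - 2 * δ / |b|, ?_⟩
    rintro m ⟨-, hm⟩
    have h1 : |m - (-(t * a) / b)| ≤ 2 * δ / |b| := by
      rw [le_div_iff₀ hbpos, ← abs_mul]
      have : (m - -(t * a) / b) * b = m * b + t * a := by
        field_simp
        ring
      rw [this]
      exact hm
    rw [abs_le] at h1
    have h2 : 4 * δ / |b| = 2 * δ / |b| + 2 * δ / |b| := by ring
    have h5 : 4 * δ / |b| ≤ 16 * L / (1 + y) := by
      have h3 : y * δ ≤ |b| * (2 * L) := by
        rw [div_le_iff₀ (by positivity)] at hb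
        linarith
      rw [div_le_div_iff₀ hbpos (by positivity)]
      have h4 : (1 + y) ≤ 2 * y := by linarith
      calc 4 * δ * (1 + y) ≤ 4 * δ * (2 * y) := by gcongr
        _ = 8 * (y * δ) := by ring
        _ ≤ 8 * (|b| * (2 * L)) := by gcongr
        _ = _ := by ring
    constructor <;> linarith [h1.1, h1.2]
  · refine ⟨0, ?_⟩
    rintro m ⟨hmL, hm⟩
    exfalso
    have h1 : |m| ≤ L := abs_le.2 hmL
    have h2 : |t * a| ≤ |m * b + t * a| + |m * b| := by
      have : t * a = (m * b + t * a) - m * b := by ring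
      nth_rewrite 1 [this]
      exact abs_sub _ _
    rw [abs_mul, abs_mul m b] at h2
    have h3 : |m| * |b| ≤ L * |b| := by gcongr
    have h4 : τ * |a| ≤ |t| * |a| := by gcongr
    have h5 : L * |b| < τ * |a| / 2 := by
      have : |b| * (2 * L) < τ * |a| := by rwa [lt_div_iff₀ (by positivity)] at hb
      linarith
    have h6 : y * δ < 4 * δ := by linarith
    have h7 : y < 4 := by nlinarith
    linarith

lemma vol0 (a b δ R : ℝ) (hδ : 0 < δ) (hR : 1 ≤ R) :
    volume {t : ℝ | |t| ≤ R ∧ |b + t * a| ≤ 2 * δ} ≤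
      ENNReal.ofReal (8 * R / (1 + 1 / R / δ * |a|)) := by
  have hR0 : 0 < R := by linarith
  set y : ℝ := 1 / R / δ * |a| with hy
  have hy0 : 0 ≤ y := by positivity
  rcases le_or_gt y 1 with h | h
  · calc volume {t : ℝ | |t| ≤ R ∧ |b + t * a| ≤ 2 * δ} ≤
          volume (Icc (-R) R) := measure_mono (fun t ht => abs_le.1 ht.1)
      _ = ENNReal.ofReal (2 * R) := by rw [Real.volume_Icc]; congr 1; ring
      _ ≤ _ := ENNReal.ofReal_le_ofReal (by
          rw [le_div_iff₀ (by positivity)]
          nlinarith)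
  · have ha : 0 < |a| := by
      by_contra hcon
      have : |a| = 0 := le_antisymm (not_lt.1 hcon) (abs_nonneg _)
      rw [hy, this] at h
      norm_num at h
    have ha0 : a ≠ 0 := abs_pos.1 ha
    calc volume {t : ℝ | |t| ≤ R ∧ |b + t * a| ≤ 2 * δ} ≤
          volume (Metric.closedBall (-b / a) (2 * δ / |a|)) := by
          apply measure_mono
          rintro t ⟨-, ht⟩
          rw [Metric.mem_closedBall, Real.dist_eq, le_div_iff₀ ha, ← abs_mul]
          have h1 : (t - -b / a) * a = b + t * a := by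
            field_simp
            ring
          rw [h1]
          exact ht
      _ = ENNReal.ofReal (2 * (2 * δ / |a|)) := Real.volume_closedBall _ _
      _ ≤ _ := by
          apply ENNReal.ofReal_le_ofReal
          have h2 : |a| = y * R * δ := by rw [hy]; field_simp
          rw [h2, le_div_iff₀ (by positivity)]
          have hyp : y ≠ 0 := by linarith
          have h3 : 2 * (2 * δ / (y * R * δ)) * (1 + y) = 4 * (1 / R) * ((1 + y) / y) := by
            field_simp
            norm_num
          rw [h3]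
          have h4 : (1 + y) / y ≤ 2 := by
            rw [div_le_iff₀ (by linarith)]
            linarith
          have h5 : 1 / R ≤ R := by
            rw [div_le_iff₀ hR0]
            nlinarith
          have h6 : 0 < (1 + y) / y := by positivity
          calc 4 * (1 / R) * ((1 + y) / y) ≤ 4 * R * 2 := by gcongr
            _ = 8 * R := by ring

/-- Frostman measures on boxes -/
lemma box_le (k : ℕ) (μ : Measure (Fin k → ℝ)) [SFinite μ] (A γ : ℝ) (hA : 0 ≤ A)
    (hμ : ∀ x : Fin k → ℝ, ∀ r : ℝ, 0 < r → μ (closedBall x r) ≤ ENNReal.ofReal (A * r ^ γ))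
    (x l : Fin k → ℝ) (r : ℝ) (hr : 0 < r) (hl : ∀ j, r ≤ l j) :
    μ (Set.univ.pi (fun j => Icc (x j) (x j + l j))) ≤
      ENNReal.ofReal (A * (3 / 2) ^ k * (∏ j, l j) * r ^ (γ - k)) := by
  set S : Set (Fin k → ℝ) := Set.univ.pi (fun j => Icc (x j) (x j + l j)) with hS
  set S' : Set (Fin k → ℝ) := Set.univ.pi (fun j => Icc (x j - r) (x j + l j + r)) with hS'
  have hSm : MeasurableSet S := MeasurableSet.univ_pi (fun _ => measurableSet_Icc)
  have hS'm : MeasurableSet S' := MeasurableSet.univ_pi (fun _ => measurableSet_Icc)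
  have hl0 : ∀ j, 0 < l j := fun j => hr.trans_le (hl j)
  have hS'v : volume S' ≤ ENNReal.ofReal (3 ^ k * ∏ j, l j) := by
    rw [hS', volume_pi_pi]
    simp only [Real.volume_Icc]
    rw [← ENNReal.ofReal_prod_of_nonneg (fun j _ => by linarith [hl0 j])]
    apply ENNReal.ofReal_le_ofReal
    have : (3 : ℝ) ^ k * ∏ j, l j = ∏ j, (3 * l j) := by
      rw [Finset.prod_mul_distrib]
      simp
    rw [this]
    apply Finset.prod_le_prod (fun j _ => by linarith [hl0 j])
    intro j _
    linarith [hl j]
  have hdm : MeasurableSet {z : (Fin k → ℝ) × (Fin k → ℝ) | dist z.2 z.1 ≤ r} :=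
    measurableSet_le (measurable_snd.dist measurable_fst) measurable_const
  have h1 : ENNReal.ofReal ((2 * r) ^ k) * μ S ≤
      ENNReal.ofReal (3 ^ k * ∏ j, l j) * ENNReal.ofReal (A * r ^ γ) := by
    calc ENNReal.ofReal ((2 * r) ^ k) * μ S = ∫⁻ m in S, volume (closedBall m r) ∂μ := by
          have : ∀ m : Fin k → ℝ, volume (closedBall m r) = ENNReal.ofReal ((2 * r) ^ k) := by
            intro m
            rw [Real.volume_pi_closedBall _ hr.le]
            simp
          simp only [this]
          rw [setLIntegral_const]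
      _ ≤ ∫⁻ m in S, (∫⁻ y in S', ({z : (Fin k → ℝ) × (Fin k → ℝ) | dist z.2 z.1 ≤ r}).indicator
            (fun _ => (1 : ℝ≥0∞)) (m, y)) ∂μ := by
          apply setLIntegral_mono' hSm
          intro m hm
          have hb : closedBall m r ⊆ S' := by
            intro y hy j _
            have h2 := (dist_le_pi_dist y m j).trans hy
            rw [Real.dist_eq, abs_le] at h2
            have h3 := hm j (Set.mem_univ j)
            constructor <;> linarith [h2.1, h2.2, h3.1, h3.2]
          have h4 : closedBall m r = closedBall m r ∩ S' := (inter_eq_left.2 hb).symm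
          rw [h4, ← Measure.restrict_apply measurableSet_closedBall,
            ← lintegral_indicator_one measurableSet_closedBall]
          apply lintegral_mono
          intro y
          simp only [Set.indicator, mem_closedBall, mem_ofPred_eq, Pi.one_apply]
          exact le_rfl
      _ ≤ ∫⁻ m, (∫⁻ y in S', ({z : (Fin k → ℝ) × (Fin k → ℝ) | dist z.2 z.1 ≤ r}).indicator
            (fun _ => (1 : ℝ≥0∞)) (m, y)) ∂μ := setLIntegral_le_lintegral _ _
      _ = ∫⁻ y in S', (∫⁻ m, ({z : (Fin k → ℝ) × (Fin k → ℝ) | dist z.2 z.1 ≤ r}).indicator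
            (fun _ => (1 : ℝ≥0∞)) (m, y) ∂μ) := by
          have hm : Measurable (Function.uncurry fun (m y : Fin k → ℝ) =>
              ({z : (Fin k → ℝ) × (Fin k → ℝ) | dist z.2 z.1 ≤ r}).indicator
            (fun _ => (1 : ℝ≥0∞)) (m, y)) := measurable_const.indicator hdm
          exact lintegral_lintegral_swap hm.aemeasurable
      _ ≤ ∫⁻ y in S', ENNReal.ofReal (A * r ^ γ) := by
          apply lintegral_mono
          intro y
          simp only
          refine le_trans (le_of_eq ?_) (hμ y r hr)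
          rw [← lintegral_indicator_one measurableSet_closedBall]
          apply lintegral_congr
          intro m
          simp only [Set.indicator, mem_closedBall, mem_ofPred_eq, Pi.one_apply, dist_comm y m]
      _ = ENNReal.ofReal (A * r ^ γ) * volume S' := setLIntegral_const _ _
      _ ≤ _ := by
          rw [mul_comm]
          exact mul_le_mul' hS'v le_rfl
  have hpos : 0 < (2 * r) ^ k := by positivity
  have hprod : 0 < ∏ j, l j := Finset.prod_pos (fun j _ => hl0 j)
  rw [← ENNReal.ofReal_mul (by positivity)] at h1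
  have h2 : μ S ≤ ENNReal.ofReal (3 ^ k * (∏ j, l j) * (A * r ^ γ)) /
      ENNReal.ofReal ((2 * r) ^ k) := by
    rw [ENNReal.le_div_iff_mul_le (Or.inl (ENNReal.ofReal_pos.2 hpos).ne')
      (Or.inl ENNReal.ofReal_ne_top), mul_comm]
    exact h1
  refine h2.trans (le_of_eq ?_)
  rw [← ENNReal.ofReal_div_of_pos hpos]
  congr 1
  rw [Real.rpow_sub hr, Real.rpow_natCast, mul_pow, div_pow]
  field_simp

/-- the one-dimensional integral -/
lemma int1 (e R : ℝ) (he : e < 1) (hR : 1 ≤ R) : ∃ C : ℝ, 0 < C ∧ ∀ δ : ℝ, 0 < δ → δ ≤ R →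
    ∫⁻ a in Icc (-(2 * R)) (2 * R), ENNReal.ofReal ((1 + 1 / R / δ * |a|) ^ (-e)) ≤
      ENNReal.ofReal (C * δ ^ e) := by
  have hR0 : 0 < R := by linarith
  refine ⟨R * (2 * ((R + 2) ^ (1 - e) / (1 - e))), ?_, ?_⟩
  · have : 0 < 1 - e := by linarith
    positivity
  intro δ hδ hδR
  have h1e : 0 < 1 - e := by linarith
  set X : ℝ := 2 / δ with hX
  have hX0 : 0 < X := by positivity
  set c : ℝ := 1 / R / δ with hc
  have hc0 : 0 < c := by positivity
  have hcX : c * (2 * R) = X := by rw [hc, hX]; field_simp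
  set g : ℝ → ℝ≥0∞ := (Icc (-X) X).indicator (fun u => ENNReal.ofReal ((1 + |u|) ^ (-e))) with hg
  have hg0 : Measurable fun u : ℝ => ENNReal.ofReal ((1 + |u|) ^ (-e)) := by fun_prop
  have hgm : Measurable g := hg0.indicator measurableSet_Icc
  have e1 : ∫⁻ a in Icc (-(2 * R)) (2 * R), ENNReal.ofReal ((1 + c * |a|) ^ (-e)) =
      ∫⁻ a, g (c * a) := by
    rw [← lintegral_indicator measurableSet_Icc]
    apply lintegral_congr
    intro a
    by_cases ha : a ∈ Icc (-(2 * R)) (2 * R)
    · have : c * a ∈ Icc (-X) X := by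
        rw [← hcX]
        constructor <;> nlinarith [ha.1, ha.2]
      rw [indicator_of_mem ha, hg, indicator_of_mem this, abs_mul, abs_of_pos hc0]
    · have : c * a ∉ Icc (-X) X := by
        rw [← hcX]
        intro h
        apply ha
        constructor
        · have := h.1
          by_contra h'
          nlinarith
        · have := h.2
          by_contra h'
          nlinarith
      rw [indicator_of_notMem ha, hg, indicator_of_notMem this]
  have e2 : ∫⁻ u in Icc 0 X, ENNReal.ofReal ((1 + |u|) ^ (-e)) ≤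
      ENNReal.ofReal ((1 + X) ^ (1 - e) / (1 - e)) := by
    have hcont : ContinuousOn (fun u : ℝ => (1 + u) ^ (-e)) (Icc 0 X) := by
      apply ContinuousOn.rpow_const (by fun_prop)
      intro u hu
      left
      linarith [hu.1]
    have hint : IntegrableOn (fun u : ℝ => (1 + u) ^ (-e)) (Icc 0 X) :=
      hcont.integrableOn_compact isCompact_Icc
    have h2 : ∫⁻ u in Icc 0 X, ENNReal.ofReal ((1 + |u|) ^ (-e)) =
        ∫⁻ u in Icc 0 X, ENNReal.ofReal ((1 + u) ^ (-e)) := by
      apply setLIntegral_congr_fun measurableSet_Icc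
      intro u hu
      simp only
      rw [abs_of_nonneg hu.1]
    rw [h2, ← ofReal_integral_eq_lintegral_ofReal hint
      ((ae_restrict_iff' measurableSet_Icc).2 (Filter.Eventually.of_forall (fun u hu => by
        have : 0 ≤ 1 + u := by linarith [hu.1]
        exact Real.rpow_nonneg this _)))]
    apply ENNReal.ofReal_le_ofReal
    rw [integral_Icc_eq_integral_Ioc, ← intervalIntegral.integral_of_le hX0.le]
    have h3 : ∫ u in (0:ℝ)..X, (1 + u) ^ (-e) = ∫ u in (1:ℝ)..(1 + X), u ^ (-e) := by
      have := intervalIntegral.integral_comp_add_left (a := 0) (b := X) (fun u : ℝ => u ^ (-e)) 1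
      simpa using this
    rw [h3, integral_rpow (Or.inl (by linarith))]
    have e3 : -e + 1 = 1 - e := by ring
    rw [e3, Real.one_rpow]
    gcongr
    linarith
  have e3 : ∫⁻ u in Icc (-X) X, ENNReal.ofReal ((1 + |u|) ^ (-e)) ≤
      2 * ENNReal.ofReal ((1 + X) ^ (1 - e) / (1 - e)) := by
    have hsub : Icc (-X) X ⊆ Icc 0 X ∪ Icc (-X) 0 := by
      intro u hu
      rcases le_total 0 u with h | h
      · left; exact ⟨h, hu.2⟩
      · right; exact ⟨hu.1, h⟩
    have hneg : ∫⁻ u in Icc (-X) 0, ENNReal.ofReal ((1 + |u|) ^ (-e)) =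
        ∫⁻ u in Icc 0 X, ENNReal.ofReal ((1 + |u|) ^ (-e)) := by
      have := (Measure.measurePreserving_neg (volume : Measure ℝ)).setLIntegral_comp_preimage
        (measurableSet_Icc : MeasurableSet (Icc 0 X)) hg0
      simp only [abs_neg] at this
      rw [← this]
      congr 2
      ext u
      simp only [mem_preimage, mem_Icc]
      constructor <;> rintro ⟨h1, h2⟩ <;> constructor <;> linarith
    calc _ ≤ _ := lintegral_mono_set hsub
      _ ≤ _ := lintegral_union_le _ _ _
      _ ≤ _ := by
        rw [hneg, ← two_mul]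
        exact mul_le_mul' le_rfl e2
  rw [e1, KK.lint_scale g hgm c hc0, hg, lintegral_indicator measurableSet_Icc]
  refine (mul_le_mul' le_rfl e3).trans ?_
  have e4 : (2 : ℝ≥0∞) = ENNReal.ofReal 2 := by norm_num
  rw [e4, ← ENNReal.ofReal_mul (by norm_num), ← ENNReal.ofReal_mul (by positivity)]
  apply ENNReal.ofReal_le_ofReal
  have h5 : 1 + X ≤ (R + 2) / δ := by
    rw [hX, le_div_iff₀ hδ]
    field_simp
    linarith
  have h6 : (1 + X) ^ (1 - e) ≤ ((R + 2) / δ) ^ (1 - e) := by gcongr
  have h7 : ((R + 2) / δ) ^ (1 - e) = (R + 2) ^ (1 - e) * (δ ^ e / δ) := by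
    rw [Real.div_rpow (by positivity) hδ.le, Real.rpow_sub hδ, Real.rpow_one]
    field_simp
  calc c⁻¹ * (2 * ((1 + X) ^ (1 - e) / (1 - e))) ≤
        c⁻¹ * (2 * (((R + 2) ^ (1 - e) * (δ ^ e / δ)) / (1 - e))) := by
        rw [← h7]
        gcongr
    _ = _ := by
        rw [hc]
        field_simp

end Pool.Agent.H147R3.KH
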