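import Mathlib
import Pool.Agent.H147R3.KH.One
set_option autoImplicit false

/-! Generic dilations of Kakeya families: the estimate at one scale. -/

namespace Pool.Agent.H147R3.KH

open MeasureTheory Set Metric
open scoped ENNReal

/-- the sum over the last coordinates -/
noncomputable def QQ {d : ℕ} (A γ L R δ : ℝ) (a : Fin (d + 2) → ℝ) : ℝ≥0∞ :=
  ∑ k : Fin (d + 1), ENNReal.ofReal (A * (3 / 2) ^ (d + 1) * (16 * L) ^ γ *
    (∏ j : Fin (d + 1), (1 + 1 / R / δ * |a j.succ|)⁻¹) *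
      (1 + 1 / R / δ * |a k.succ|) ^ ((d : ℝ) + 1 - γ))

lemma mu_le {d : ℕ} (μ : Measure (Fin (d + 1) → ℝ)) [SFinite μ] (A γ : ℝ) (hA : 0 ≤ A)
    (hμ : ∀ x : Fin (d + 1) → ℝ, ∀ r : ℝ, 0 < r →
      μ (closedBall x r) ≤ ENNReal.ofReal (A * r ^ γ))
    (L R δ t : ℝ) (hL : 0 < L) (hR : 1 ≤ R) (hδ : 0 < δ) (ht : 1 / R ≤ |t|)
    (b a : Fin (d + 2) → ℝ) :
    μ {m | m ∈ closedBall 0 L ∧ ∀ j : Fin (d + 1), |m j * b j.succ + t * a j.succ| ≤ 2 * δ} ≤
      QQ A γ L R δ a := by
  have hR0 : 0 < R := by linarith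
  set l : Fin (d + 1) → ℝ := fun j => 16 * L / (1 + 1 / R / δ * |a j.succ|) with hl
  have hl0 : ∀ j, 0 < l j := fun j => by
    rw [hl]
    positivity
  choose x hx using fun j : Fin (d + 1) =>
    sub1 (a j.succ) (b j.succ) t δ (1 / R) L hδ (by positivity) ht hL
  obtain ⟨k, -, hk⟩ := Finset.exists_min_image Finset.univ l Finset.univ_nonempty
  have hk' : ∀ j, l k ≤ l j := fun j => hk j (Finset.mem_univ j)
  calc _ ≤ μ (Set.univ.pi (fun j => Icc (x j) (x j + l j))) := by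
        apply measure_mono
        rintro m ⟨hm1, hm2⟩ j _
        apply hx j
        refine ⟨?_, hm2 j⟩
        rw [mem_closedBall, dist_zero_right] at hm1
        have := (norm_le_pi_norm m j).trans hm1
        rw [Real.norm_eq_abs] at this
        exact abs_le.1 this
    _ ≤ ENNReal.ofReal (A * (3 / 2) ^ (d + 1) * (∏ j, l j) * (l k) ^ (γ - ((d + 1 : ℕ) : ℝ))) :=
        box_le (d + 1) μ A γ hA hμ x l (l k) (hl0 k) hk'
    _ = ENNReal.ofReal (A * (3 / 2) ^ (d + 1) * (16 * L) ^ γ *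
        (∏ j : Fin (d + 1), (1 + 1 / R / δ * |a j.succ|)⁻¹) *
          (1 + 1 / R / δ * |a k.succ|) ^ ((d : ℝ) + 1 - γ)) := by
        congr 1
        have e1 : ∏ j, l j = (16 * L) ^ (d + 1) *
            ∏ j : Fin (d + 1), (1 + 1 / R / δ * |a j.succ|)⁻¹ := by
          rw [hl]
          simp only [div_eq_mul_inv (16 * L)]
          rw [Finset.prod_mul_distrib]
          simp
        have e2 : (l k) ^ (γ - ((d + 1 : ℕ) : ℝ)) = (16 * L) ^ γ / (16 * L) ^ (d + 1) *
            (1 + 1 / R / δ * |a k.succ|) ^ ((d : ℝ) + 1 - γ) := by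
          rw [hl]
          simp only
          rw [Real.div_rpow (by positivity) (by positivity), Real.rpow_sub (by positivity) γ,
            Real.rpow_natCast, div_eq_mul_inv _ ((1 + 1 / R / δ * |a k.succ|) ^ (γ - _)),
            ← Real.rpow_neg (by positivity)]
          congr 2
          push_cast
          ring
        rw [e1, e2]
        field_simp
    _ ≤ _ := by
        unfold QQ
        exact Finset.single_le_sum (f := fun k : Fin (d + 1) =>
          ENNReal.ofReal (A * (3 / 2) ^ (d + 1) * (16 * L) ^ γ *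
          (∏ j : Fin (d + 1), (1 + 1 / R / δ * |a j.succ|)⁻¹) *
            (1 + 1 / R / δ * |a k.succ|) ^ ((d : ℝ) + 1 - γ))) (fun i _ => zero_le)
            (Finset.mem_univ k)

/-- the exponents -/
noncomputable def ex {d : ℕ} (γ θ : ℝ) (k : Fin (d + 1)) (j : Fin (d + 2)) : ℝ :=
  if j = k.succ then γ - d - (1 - θ) else θ

lemma QQ_le {d : ℕ} (A γ L R δ θ : ℝ) (hA : 0 ≤ A) (hL : 0 < L) (hR : 1 ≤ R) (hδ : 0 < δ)
    (hθ1 : θ < 1) (a : Fin (d + 2) → ℝ) :
    QQ A γ L R δ a * ENNReal.ofReal (8 * R / (1 + 1 / R / δ * |a 0|)) ≤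
      ∑ k : Fin (d + 1), ENNReal.ofReal (A * (3 / 2) ^ (d + 1) * (16 * L) ^ γ * (8 * R)) *
        ∏ j, ENNReal.ofReal ((1 + 1 / R / δ * |a j|) ^ (-ex γ θ k j)) := by
  have hR0 : 0 < R := by linarith
  unfold QQ
  rw [Finset.sum_mul]
  apply Finset.sum_le_sum
  intro k _
  rw [← ENNReal.ofReal_prod_of_nonneg (fun j _ => by positivity), ← ENNReal.ofReal_mul (by positivity),
    ← ENNReal.ofReal_mul (by positivity)]
  apply ENNReal.ofReal_le_ofReal
  have h1 : ∏ j : Fin (d + 2), ((1 + 1 / R / δ * |a j|)⁻¹ *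
      (if j = k.succ then (1 + 1 / R / δ * |a j|) ^ ((d : ℝ) + 1 - γ) else 1)) ≤
      ∏ j, (1 + 1 / R / δ * |a j|) ^ (-ex γ θ k j) := by
    apply Finset.prod_le_prod
    · intro j _
      split_ifs <;> positivity
    · intro j _
      have hb : 1 ≤ 1 + 1 / R / δ * |a j| := by
        have : 0 ≤ 1 / R / δ * |a j| := by positivity
        linarith
      have hb0 : 0 < 1 + 1 / R / δ * |a j| := by linarith
      unfold ex
      split_ifs with h
      · rw [← Real.rpow_neg_one, ← Real.rpow_add hb0]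
        apply Real.rpow_le_rpow_of_exponent_le hb
        linarith
      · rw [mul_one, ← Real.rpow_neg_one]
        apply Real.rpow_le_rpow_of_exponent_le hb
        linarith
  rw [Finset.prod_mul_distrib, Finset.prod_ite_eq' Finset.univ k.succ
    (fun j => (1 + 1 / R / δ * |a j|) ^ ((d : ℝ) + 1 - γ))] at h1
  simp only [Finset.mem_univ, if_true] at h1
  rw [Fin.prod_univ_succ] at h1
  calc _ = A * (3 / 2) ^ (d + 1) * (16 * L) ^ γ * (8 * R) *
        ((1 + 1 / R / δ * |a 0|)⁻¹ * (∏ j : Fin (d + 1), (1 + 1 / R / δ * |a j.succ|)⁻¹) *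
          (1 + 1 / R / δ * |a k.succ|) ^ ((d : ℝ) + 1 - γ)) := by
        rw [div_eq_mul_inv (8 * R)]
        ring
    _ ≤ _ := by gcongr

lemma ex_sum {d : ℕ} (γ θ : ℝ) (k : Fin (d + 1)) :
    ∑ j : Fin (d + 2), ex γ θ k j = θ * (d + 2) + γ - d - 1 := by
  unfold ex
  have h1 : ∀ j : Fin (d + 2), (if j = k.succ then γ - d - (1 - θ) else θ) =
      θ + (if j = k.succ then γ - d - 1 else 0) := by
    intro j
    split_ifs <;> ring
  simp only [h1]
  rw [Finset.sum_add_distrib, Finset.sum_ite_eq' Finset.univ k.succ (fun _ => γ - d - 1)]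
  simp only [Finset.sum_const, Finset.card_univ, Fintype.card_fin, nsmul_eq_mul, Finset.mem_univ,
    if_true]
  push_cast
  ring

/-- the integral over the differences of directions -/
lemma int_a {d : ℕ} (A γ L R θ : ℝ) (hA : 0 ≤ A) (hL : 0 < L) (hR : 1 ≤ R)
    (hθ1 : θ < 1) (hγ : γ ≤ d + 1) : ∃ C : ℝ, 0 ≤ C ∧ ∀ δ : ℝ, 0 < δ → δ ≤ R →
    ∫⁻ a in Set.univ.pi (fun _ : Fin (d + 2) => Icc (-(2 * R)) (2 * R)),
      QQ A γ L R δ a * ENNReal.ofReal (8 * R / (1 + 1 / R / δ * |a 0|)) ≤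
      ENNReal.ofReal (C * δ ^ (θ * (d + 2) + γ - d - 1)) := by
  have hR0 : 0 < R := by linarith
  have hex : ∀ (k : Fin (d + 1)) (j : Fin (d + 2)), ex γ θ k j < 1 := by
    intro k j
    unfold ex
    split_ifs <;> linarith
  choose C hC0 hC using fun (k : Fin (d + 1)) (j : Fin (d + 2)) => int1 (ex γ θ k j) R (hex k j) hR
  refine ⟨∑ k : Fin (d + 1), (A * (3 / 2) ^ (d + 1) * (16 * L) ^ γ * (8 * R)) * ∏ j, C k j,
    Finset.sum_nonneg (fun k _ => mul_nonneg (by positivity)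
      (Finset.prod_nonneg (fun j _ => (hC0 k j).le))), ?_⟩
  intro δ hδ hδR
  have hmf : ∀ (k : Fin (d + 1)) (j : Fin (d + 2)), Measurable fun x : ℝ =>
      ENNReal.ofReal ((1 + 1 / R / δ * |x|) ^ (-ex γ θ k j)) := fun k j => by fun_prop
  have hmp : ∀ k : Fin (d + 1), Measurable fun a : Fin (d + 2) → ℝ =>
      ∏ j, ENNReal.ofReal ((1 + 1 / R / δ * |a j|) ^ (-ex γ θ k j)) := fun k =>
    Finset.measurable_prod _ (fun j _ => (hmf k j).comp (measurable_pi_apply j))
  have hbox : MeasurableSet (Set.univ.pi (fun _ : Fin (d + 2) => Icc (-(2 * R)) (2 * R))) :=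
    MeasurableSet.univ_pi (fun _ => measurableSet_Icc)
  have hprod : ∀ k : Fin (d + 1),
      ∫⁻ a in Set.univ.pi (fun _ : Fin (d + 2) => Icc (-(2 * R)) (2 * R)),
        ∏ j, ENNReal.ofReal ((1 + 1 / R / δ * |a j|) ^ (-ex γ θ k j)) ≤
      ENNReal.ofReal ((∏ j, C k j) * δ ^ (θ * (d + 2) + γ - d - 1)) := by
    intro k
    rw [← lintegral_indicator hbox]
    calc _ ≤ ∫⁻ a : Fin (d + 2) → ℝ, ∏ j, (Icc (-(2 * R)) (2 * R)).indicator
            (fun x => ENNReal.ofReal ((1 + 1 / R / δ * |x|) ^ (-ex γ θ k j))) (a j) := by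
          apply lintegral_mono
          intro a
          simp only
          by_cases ha : a ∈ Set.univ.pi (fun _ : Fin (d + 2) => Icc (-(2 * R)) (2 * R))
          · rw [indicator_of_mem ha]
            apply le_of_eq
            apply Finset.prod_congr rfl
            intro j _
            rw [indicator_of_mem (ha j (Set.mem_univ j))]
          · rw [indicator_of_notMem ha]
            exact zero_le
      _ = ∏ j, ∫⁻ x, (Icc (-(2 * R)) (2 * R)).indicator
            (fun x => ENNReal.ofReal ((1 + 1 / R / δ * |x|) ^ (-ex γ θ k j))) x :=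
          KK.lint_pi_prod (d + 2) _ (fun j => (hmf k j).indicator measurableSet_Icc)
      _ ≤ ∏ j, ENNReal.ofReal (C k j * δ ^ (ex γ θ k j)) := by
          apply Finset.prod_le_prod'
          intro j _
          rw [lintegral_indicator measurableSet_Icc]
          exact hC k j δ hδ hδR
      _ = _ := by
          rw [← ENNReal.ofReal_prod_of_nonneg (fun j _ => mul_nonneg (hC0 k j).le (by positivity)),
            Finset.prod_mul_distrib, ← Real.rpow_sum_of_pos hδ, ex_sum]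
  calc _ ≤ ∫⁻ a in Set.univ.pi (fun _ : Fin (d + 2) => Icc (-(2 * R)) (2 * R)),
        ∑ k : Fin (d + 1), ENNReal.ofReal (A * (3 / 2) ^ (d + 1) * (16 * L) ^ γ * (8 * R)) *
        ∏ j, ENNReal.ofReal ((1 + 1 / R / δ * |a j|) ^ (-ex γ θ k j)) :=
        lintegral_mono (fun a => QQ_le A γ L R δ θ hA hL hR hδ hθ1 a)
    _ = ∑ k : Fin (d + 1), ENNReal.ofReal (A * (3 / 2) ^ (d + 1) * (16 * L) ^ γ * (8 * R)) *
        ∫⁻ a in Set.univ.pi (fun _ : Fin (d + 2) => Icc (-(2 * R)) (2 * R)),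
        ∏ j, ENNReal.ofReal ((1 + 1 / R / δ * |a j|) ^ (-ex γ θ k j)) := by
        rw [lintegral_finsetSum _ (fun k _ => (hmp k).const_mul _)]
        refine Finset.sum_congr rfl (fun k _ => ?_)
        rw [lintegral_const_mul _ (hmp k)]
    _ ≤ ∑ k : Fin (d + 1), ENNReal.ofReal (A * (3 / 2) ^ (d + 1) * (16 * L) ^ γ * (8 * R)) *
        ENNReal.ofReal ((∏ j, C k j) * δ ^ (θ * (d + 2) + γ - d - 1)) :=
        Finset.sum_le_sum (fun k _ => mul_le_mul' le_rfl (hprod k))
    _ = _ := by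
        rw [Finset.sum_mul, ENNReal.ofReal_sum_of_nonneg (fun k _ => by
          have : 0 ≤ ∏ j, C k j := Finset.prod_nonneg (fun j _ => (hC0 k j).le)
          positivity)]
        refine Finset.sum_congr rfl (fun k _ => ?_)
        rw [← ENNReal.ofReal_mul (by positivity)]
        congr 1
        ring

end Pool.Agent.H147R3.KH
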