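import Mathlib
import Pool.Agent.H147R3.KH.Two
set_option autoImplicit false

/-! Generic dilations of Kakeya families: the averaged correlation at one scale. -/

namespace Pool.Agent.H147R3.KH

open MeasureTheory Set Metric
open scoped ENNReal

variable {d : ℕ}

/-- the point at height `z.2` of the line number `z.1`, whose position is dilated by `m` -/
def gam (p : (Fin (d + 2) → ℝ) → (Fin (d + 2) → ℝ)) (m : Fin (d + 1) → ℝ)
    (z : (Fin (d + 2) → ℝ) × ℝ) : (Fin (d + 2) → ℝ) × ℝ :=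
  (fun j => (Fin.cons 1 m : Fin (d + 2) → ℝ) j * p z.1 j + z.2 * z.1 j, z.2)

/-- the box of directions -/
def Bx (d : ℕ) (R : ℝ) : Set (Fin (d + 2) → ℝ) := Set.univ.pi (fun _ => Icc (-R) R)

/-- the set of heights -/
def Tm (R : ℝ) : Set ℝ := {t : ℝ | 1 / R ≤ |t| ∧ |t| ≤ R}

lemma Bx_meas (R : ℝ) : MeasurableSet (Bx d R) := MeasurableSet.univ_pi (fun _ => measurableSet_Icc)

lemma Tm_meas (R : ℝ) : MeasurableSet (Tm R) :=
  (measurableSet_le measurable_const measurable_id.abs).inter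
    (measurableSet_le measurable_id.abs measurable_const)

/-- the first condition -/
def S0 (p : (Fin (d + 2) → ℝ) → (Fin (d + 2) → ℝ)) (δ : ℝ) :
    Set (((Fin (d + 2) → ℝ) × ℝ) × (Fin (d + 2) → ℝ)) :=
  {w | |(p w.1.1 0 - p w.2 0) + w.1.2 * (w.1.1 0 - w.2 0)| ≤ 2 * δ}

/-- the other conditions -/
def S1 (p : (Fin (d + 2) → ℝ) → (Fin (d + 2) → ℝ)) (δ : ℝ) :
    Set ((Fin (d + 1) → ℝ) × (((Fin (d + 2) → ℝ) × ℝ) × (Fin (d + 2) → ℝ))) :=
  {y | ∀ j : Fin (d + 1), |y.1 j * (p y.2.1.1 j.succ - p y.2.2 j.succ) +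
    y.2.1.2 * (y.2.1.1 j.succ - y.2.2 j.succ)| ≤ 2 * δ}

lemma S0_meas {p : (Fin (d + 2) → ℝ) → (Fin (d + 2) → ℝ)} (hp : Measurable p) (δ : ℝ) :
    MeasurableSet (S0 p δ) := by
  unfold S0
  have e1 : Measurable fun w : ((Fin (d + 2) → ℝ) × ℝ) × (Fin (d + 2) → ℝ) => p w.1.1 0 :=
    (measurable_pi_apply 0).comp (hp.comp (measurable_fst.comp measurable_fst))
  have e2 : Measurable fun w : ((Fin (d + 2) → ℝ) × ℝ) × (Fin (d + 2) → ℝ) => p w.2 0 :=
    (measurable_pi_apply 0).comp (hp.comp measurable_snd)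
  have e3 : Measurable fun w : ((Fin (d + 2) → ℝ) × ℝ) × (Fin (d + 2) → ℝ) => w.1.1 0 :=
    (measurable_pi_apply 0).comp (measurable_fst.comp measurable_fst)
  have e4 : Measurable fun w : ((Fin (d + 2) → ℝ) × ℝ) × (Fin (d + 2) → ℝ) => w.2 0 :=
    (measurable_pi_apply 0).comp measurable_snd
  have e5 : Measurable fun w : ((Fin (d + 2) → ℝ) × ℝ) × (Fin (d + 2) → ℝ) => w.1.2 :=
    measurable_snd.comp measurable_fst
  exact measurableSet_le (((e1.sub e2).add (e5.mul (e3.sub e4))).abs) measurable_const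

lemma S1_meas {p : (Fin (d + 2) → ℝ) → (Fin (d + 2) → ℝ)} (hp : Measurable p) (δ : ℝ) :
    MeasurableSet (S1 p δ) := by
  have h2 : S1 p δ = ⋂ j : Fin (d + 1),
      {y : (Fin (d + 1) → ℝ) × (((Fin (d + 2) → ℝ) × ℝ) × (Fin (d + 2) → ℝ)) |
      |y.1 j * (p y.2.1.1 j.succ - p y.2.2 j.succ) +
      y.2.1.2 * (y.2.1.1 j.succ - y.2.2 j.succ)| ≤ 2 * δ} := by
    ext y
    simp [S1]
  rw [h2]
  apply MeasurableSet.iInter
  intro j
  have f1 : Measurable fun y : (Fin (d + 1) → ℝ) × (((Fin (d + 2) → ℝ) × ℝ) × (Fin (d + 2) → ℝ)) =>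
      y.2.1.1 := measurable_fst.comp (measurable_fst.comp measurable_snd)
  have f2 : Measurable fun y : (Fin (d + 1) → ℝ) × (((Fin (d + 2) → ℝ) × ℝ) × (Fin (d + 2) → ℝ)) =>
      y.2.2 := measurable_snd.comp measurable_snd
  have e1 : Measurable fun y : (Fin (d + 1) → ℝ) × (((Fin (d + 2) → ℝ) × ℝ) × (Fin (d + 2) → ℝ)) =>
      p y.2.1.1 j.succ := (measurable_pi_apply j.succ).comp (hp.comp f1)
  have e2 : Measurable fun y : (Fin (d + 1) → ℝ) × (((Fin (d + 2) → ℝ) × ℝ) × (Fin (d + 2) → ℝ)) =>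
      p y.2.2 j.succ := (measurable_pi_apply j.succ).comp (hp.comp f2)
  have e3 : Measurable fun y : (Fin (d + 1) → ℝ) × (((Fin (d + 2) → ℝ) × ℝ) × (Fin (d + 2) → ℝ)) =>
      y.2.1.1 j.succ := (measurable_pi_apply j.succ).comp f1
  have e4 : Measurable fun y : (Fin (d + 1) → ℝ) × (((Fin (d + 2) → ℝ) × ℝ) × (Fin (d + 2) → ℝ)) =>
      y.2.2 j.succ := (measurable_pi_apply j.succ).comp f2
  have e5 : Measurable fun y : (Fin (d + 1) → ℝ) × (((Fin (d + 2) → ℝ) × ℝ) × (Fin (d + 2) → ℝ)) =>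
      y.2.1.2 := measurable_snd.comp (measurable_fst.comp measurable_snd)
  have e6 : Measurable fun y : (Fin (d + 1) → ℝ) × (((Fin (d + 2) → ℝ) × ℝ) × (Fin (d + 2) → ℝ)) =>
      y.1 j := (measurable_pi_apply j).comp measurable_fst
  exact measurableSet_le (((e6.mul (e1.sub e2)).add (e5.mul (e3.sub e4))).abs) measurable_const

/-- both conditions -/
def S2 (p : (Fin (d + 2) → ℝ) → (Fin (d + 2) → ℝ)) (δ : ℝ) :
    Set ((Fin (d + 1) → ℝ) × (((Fin (d + 2) → ℝ) × ℝ) × (Fin (d + 2) → ℝ))) :=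
  {y | y.2 ∈ S0 p δ ∧ y ∈ S1 p δ}

lemma S2_meas {p : (Fin (d + 2) → ℝ) → (Fin (d + 2) → ℝ)} (hp : Measurable p) (δ : ℝ) :
    MeasurableSet (S2 p δ) :=
  (measurable_snd (S0_meas hp δ)).inter (S1_meas hp δ)

lemma stepA {p : (Fin (d + 2) → ℝ) → (Fin (d + 2) → ℝ)} (hp : Measurable p) (R ρ : ℝ)
    (hR : 1 ≤ R) (hρ : 0 < ρ) (m : Fin (d + 1) → ℝ) (z : (Fin (d + 2) → ℝ) × ℝ) :
    volume ((Bx d R ×ˢ Tm R) ∩ {z' | dist (gam p m z) (gam p m z') ≤ ρ}) ≤
      ENNReal.ofReal (2 * ρ) * ∫⁻ v' in Bx d R,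
        (S2 p (R * ρ)).indicator (fun _ => (1 : ℝ≥0∞)) (m, (z, v')) := by
  set A : Set (Fin (d + 2) → ℝ) := {v' | (m, (z, v')) ∈ S2 p (R * ρ)} with hA
  have hAm : MeasurableSet A := by
    have h1 : Measurable fun v' : Fin (d + 2) → ℝ => ((m, (z, v')) :
      (Fin (d + 1) → ℝ) × (((Fin (d + 2) → ℝ) × ℝ) × (Fin (d + 2) → ℝ))) := by fun_prop
    exact h1 (S2_meas hp _)
  have hsub : ((Bx d R ×ˢ Tm R) ∩ {z' | dist (gam p m z) (gam p m z') ≤ ρ}) ⊆
      (A ∩ Bx d R) ×ˢ Icc (z.2 - ρ) (z.2 + ρ) := by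
    rintro ⟨v', t'⟩ ⟨⟨hv', -⟩, hd⟩
    rw [mem_ofPred_eq, Prod.dist_eq, max_le_iff] at hd
    obtain ⟨hd1, hd2⟩ := hd
    simp only [gam] at hd1 hd2
    rw [Real.dist_eq, abs_le] at hd2
    have key : ∀ j, |(Fin.cons 1 m : Fin (d + 2) → ℝ) j * (p z.1 j - p v' j) +
        z.2 * (z.1 j - v' j)| ≤ 2 * (R * ρ) := by
      intro j
      have h1 := (dist_le_pi_dist _ _ j).trans hd1
      rw [Real.dist_eq] at h1
      have h2 : |v' j| ≤ R := abs_le.2 (hv' j (Set.mem_univ j))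
      have h3 : |(t' - z.2) * v' j| ≤ ρ * R := by
        rw [abs_mul]
        have h4 : |t' - z.2| ≤ ρ := by rw [abs_le]; constructor <;> linarith [hd2.1, hd2.2]
        exact mul_le_mul h4 h2 (abs_nonneg _) hρ.le
      have h5 : (Fin.cons 1 m : Fin (d + 2) → ℝ) j * (p z.1 j - p v' j) + z.2 * (z.1 j - v' j) =
          ((Fin.cons 1 m : Fin (d + 2) → ℝ) j * p z.1 j + z.2 * z.1 j -
            ((Fin.cons 1 m : Fin (d + 2) → ℝ) j * p v' j + t' * v' j)) + (t' - z.2) * v' j := by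
        ring
      rw [h5]
      refine (abs_add_le _ _).trans ?_
      have h6 : ρ ≤ ρ * R := by nlinarith
      linarith
    refine ⟨⟨⟨?_, ?_⟩, hv'⟩, ?_⟩
    · have := key 0
      simp only [Fin.cons_zero, one_mul] at this
      exact this
    · intro j
      have := key j.succ
      simp only [Fin.cons_succ] at this
      exact this
    · constructor <;> linarith [hd2.1, hd2.2]
  calc _ ≤ volume ((A ∩ Bx d R) ×ˢ Icc (z.2 - ρ) (z.2 + ρ)) := measure_mono hsub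
    _ = volume (A ∩ Bx d R) * ENNReal.ofReal (2 * ρ) := by
        rw [Measure.volume_eq_prod, Measure.prod_prod, Real.volume_Icc]
        congr 2
        ring
    _ = _ := by
        rw [mul_comm, ← Measure.restrict_apply hAm, ← lintegral_indicator_one hAm]
        congr 1

lemma stepC {p : (Fin (d + 2) → ℝ) → (Fin (d + 2) → ℝ)} (hp : Measurable p)
    (μ : Measure (Fin (d + 1) → ℝ)) [SFinite μ] (A γ : ℝ) (hA : 0 ≤ A)
    (hμ : ∀ x : Fin (d + 1) → ℝ, ∀ r : ℝ, 0 < r →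
      μ (closedBall x r) ≤ ENNReal.ofReal (A * r ^ γ))
    (L R δ : ℝ) (hL : 0 < L) (hR : 1 ≤ R) (hδ : 0 < δ)
    (z : (Fin (d + 2) → ℝ) × ℝ) (hz : 1 / R ≤ |z.2|) (v' : Fin (d + 2) → ℝ) :
    ∫⁻ m in closedBall 0 L, (S2 p δ).indicator (fun _ => (1 : ℝ≥0∞)) (m, (z, v')) ∂μ ≤
      (S0 p δ).indicator (fun _ => (1 : ℝ≥0∞)) (z, v') *
        QQ A γ L R δ (fun j => z.1 j - v' j) := by
  by_cases h0 : (z, v') ∈ S0 p δ
  · rw [indicator_of_mem h0, one_mul]
    refine le_trans ?_ (mu_le μ A γ hA hμ L R δ z.2 hL hR hδ hz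
      (fun j => p z.1 j - p v' j) (fun j => z.1 j - v' j))
    have h1 : Measurable fun m : Fin (d + 1) → ℝ => ((m, (z, v')) :
      (Fin (d + 1) → ℝ) × (((Fin (d + 2) → ℝ) × ℝ) × (Fin (d + 2) → ℝ))) := by fun_prop
    have h2 : MeasurableSet {m : Fin (d + 1) → ℝ | (m, (z, v')) ∈ S2 p δ} := h1 (S2_meas hp _)
    calc _ = ∫⁻ m in closedBall 0 L, ({m : Fin (d + 1) → ℝ | (m, (z, v')) ∈ S2 p δ}).indicator
            1 m ∂μ := rfl
      _ = μ ({m : Fin (d + 1) → ℝ | (m, (z, v')) ∈ S2 p δ} ∩ closedBall 0 L) := by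
          rw [lintegral_indicator_one h2, Measure.restrict_apply h2]
      _ ≤ _ := by
          apply measure_mono
          rintro m ⟨hm1, hm2⟩
          exact ⟨hm2, hm1.2⟩
  · rw [indicator_of_notMem h0, zero_mul]
    apply le_of_eq
    have : ∀ m : Fin (d + 1) → ℝ, (S2 p δ).indicator (fun _ => (1 : ℝ≥0∞)) (m, (z, v')) = 0 := by
      intro m
      apply indicator_of_notMem
      intro h
      exact h0 h.1
    simp [this]

lemma QQ_meas (A γ L R δ : ℝ) :
    Measurable (QQ (d := d) A γ L R δ) := by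
  unfold QQ
  apply Finset.measurable_sum
  intro k _
  apply Measurable.ennreal_ofReal
  have hb : ∀ j : Fin (d + 2), Measurable fun a : Fin (d + 2) → ℝ => 1 + 1 / R / δ * |a j| :=
    fun j => (((measurable_pi_apply j).abs).const_mul _).const_add _
  have h1 : Measurable fun a : Fin (d + 2) → ℝ =>
      ∏ j : Fin (d + 1), (1 + 1 / R / δ * |a j.succ|)⁻¹ :=
    Finset.measurable_prod _ (fun j _ => (hb j.succ).inv)
  exact (h1.const_mul _).mul ((hb k.succ).pow_const _)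

theorem key {p : (Fin (d + 2) → ℝ) → (Fin (d + 2) → ℝ)} (hp : Measurable p)
    (μ : Measure (Fin (d + 1) → ℝ)) [SFinite μ] (A γ : ℝ) (hA : 0 ≤ A) (hγ : γ ≤ d + 1)
    (hμ : ∀ x : Fin (d + 1) → ℝ, ∀ r : ℝ, 0 < r →
      μ (closedBall x r) ≤ ENNReal.ofReal (A * r ^ γ))
    (L R θ : ℝ) (hL : 0 < L) (hR : 1 ≤ R) (hθ1 : θ < 1) :
    ∃ C : ℝ, 0 ≤ C ∧ ∀ ρ : ℝ, 0 < ρ → ρ ≤ 1 →
      ∫⁻ m in closedBall 0 L, (∫⁻ z in Bx d R ×ˢ Tm R,
        volume ((Bx d R ×ˢ Tm R) ∩ {z' | dist (gam p m z) (gam p m z') ≤ ρ})) ∂μ ≤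
      ENNReal.ofReal (C * ρ ^ (θ * (d + 2) + γ - d)) := by
  have hR0 : 0 < R := by linarith
  obtain ⟨C, hC0, hC⟩ := int_a (d := d) A γ L R θ hA hL hR hθ1 hγ
  refine ⟨2 * (2 * R) ^ (d + 2) * C * R ^ (θ * (d + 2) + γ - d - 1), by positivity, ?_⟩
  intro ρ hρ hρ1
  set δ : ℝ := R * ρ with hδdef
  have hδ : 0 < δ := by positivity
  have hδR : δ ≤ R := by rw [hδdef]; nlinarith
  set X : Measure (Fin (d + 1) → ℝ) := μ.restrict (closedBall 0 L) with hX
  set B : Measure (Fin (d + 2) → ℝ) := volume.restrict (Bx d R) with hB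
  set T : Measure ℝ := volume.restrict (Tm R) with hT
  have hZ : (volume.restrict (Bx d R ×ˢ Tm R) : Measure ((Fin (d + 2) → ℝ) × ℝ)) = B.prod T := by
    rw [hB, hT, Measure.volume_eq_prod, Measure.prod_restrict]
  have hS2 := S2_meas hp δ
  have hS0 := S0_meas hp δ
  have hchi : Measurable fun y : (Fin (d + 1) → ℝ) × (((Fin (d + 2) → ℝ) × ℝ) × (Fin (d + 2) → ℝ))
      => (S2 p δ).indicator (fun _ => (1 : ℝ≥0∞)) y := measurable_const.indicator hS2
  have hchi1 : Measurable fun y : ((Fin (d + 1) → ℝ) × ((Fin (d + 2) → ℝ) × ℝ)) ×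
      (Fin (d + 2) → ℝ) => (S2 p δ).indicator (fun _ => (1 : ℝ≥0∞)) (y.1.1, (y.1.2, y.2)) :=
    hchi.comp (by fun_prop : Measurable fun y : ((Fin (d + 1) → ℝ) × ((Fin (d + 2) → ℝ) × ℝ)) ×
      (Fin (d + 2) → ℝ) => ((y.1.1, (y.1.2, y.2)) :
        (Fin (d + 1) → ℝ) × (((Fin (d + 2) → ℝ) × ℝ) × (Fin (d + 2) → ℝ))))
  have hint1 : Measurable fun y : (Fin (d + 1) → ℝ) × ((Fin (d + 2) → ℝ) × ℝ) =>
      ∫⁻ v', (S2 p δ).indicator (fun _ => (1 : ℝ≥0∞)) (y.1, (y.2, v')) ∂B :=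
    hchi1.lintegral_prod_right'
  have hs0 : Measurable fun w : ((Fin (d + 2) → ℝ) × ℝ) × (Fin (d + 2) → ℝ) =>
      (S0 p δ).indicator (fun _ => (1 : ℝ≥0∞)) w := measurable_const.indicator hS0
  have hQm := QQ_meas (d := d) A γ L R δ
  have hF : Measurable fun a : Fin (d + 2) → ℝ =>
      QQ A γ L R δ a * ENNReal.ofReal (8 * R / (1 + 1 / R / δ * |a 0|)) := by
    apply hQm.mul
    apply Measurable.ennreal_ofReal
    exact measurable_const.div ((((measurable_pi_apply 0).abs).const_mul _).const_add _)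
  have hDE : ∀ v ∈ Bx d R, ∫⁻ v', QQ A γ L R δ (fun j => v j - v' j) *
      ENNReal.ofReal (8 * R / (1 + 1 / R / δ * |v 0 - v' 0|)) ∂B ≤
      ENNReal.ofReal (C * δ ^ (θ * (d + 2) + γ - d - 1)) := by
    intro v hv
    refine le_trans ?_ (hC δ hδ hδR)
    have hbox : MeasurableSet (Set.univ.pi (fun _ : Fin (d + 2) => Icc (-(2 * R)) (2 * R))) :=
      MeasurableSet.univ_pi (fun _ => measurableSet_Icc)
    rw [hB, ← lintegral_indicator (Bx_meas R), ← lintegral_indicator hbox]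
    have h1 := lintegral_sub_left_eq_self (μ := (volume : Measure (Fin (d + 2) → ℝ)))
      ((Set.univ.pi (fun _ : Fin (d + 2) => Icc (-(2 * R)) (2 * R))).indicator
        (fun a => QQ A γ L R δ a * ENNReal.ofReal (8 * R / (1 + 1 / R / δ * |a 0|)))) v
    rw [← h1]
    apply lintegral_mono
    intro v'
    simp only
    by_cases hv' : v' ∈ Bx d R
    · have h2 : v - v' ∈ Set.univ.pi (fun _ : Fin (d + 2) => Icc (-(2 * R)) (2 * R)) := by
        intro j _
        have h3 := hv j (Set.mem_univ j)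
        have h4 := hv' j (Set.mem_univ j)
        simp only [Pi.sub_apply]
        constructor <;> linarith [h3.1, h3.2, h4.1, h4.2]
      rw [indicator_of_mem hv', indicator_of_mem h2]
      exact le_of_eq rfl
    · rw [indicator_of_notMem hv']
      exact zero_le
  calc ∫⁻ m in closedBall 0 L, (∫⁻ z in Bx d R ×ˢ Tm R,
        volume ((Bx d R ×ˢ Tm R) ∩ {z' | dist (gam p m z) (gam p m z') ≤ ρ})) ∂μ
      ≤ ∫⁻ m, (∫⁻ z in Bx d R ×ˢ Tm R, ENNReal.ofReal (2 * ρ) * ∫⁻ v',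
        (S2 p δ).indicator (fun _ => (1 : ℝ≥0∞)) (m, (z, v')) ∂B) ∂X :=
        lintegral_mono (fun m => lintegral_mono (fun z => stepA hp R ρ hR hρ m z))
    _ = ENNReal.ofReal (2 * ρ) * ∫⁻ m, (∫⁻ z in Bx d R ×ˢ Tm R, (∫⁻ v',
        (S2 p δ).indicator (fun _ => (1 : ℝ≥0∞)) (m, (z, v')) ∂B)) ∂X := by
        rw [← lintegral_const_mul' _ _ ENNReal.ofReal_ne_top]
        apply lintegral_congr
        intro m
        rw [← lintegral_const_mul' _ _ ENNReal.ofReal_ne_top]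
    _ = ENNReal.ofReal (2 * ρ) * ∫⁻ z in Bx d R ×ˢ Tm R, (∫⁻ m, (∫⁻ v',
        (S2 p δ).indicator (fun _ => (1 : ℝ≥0∞)) (m, (z, v')) ∂B) ∂X) := by
        congr 1
        exact lintegral_lintegral_swap (f := fun (m : Fin (d + 1) → ℝ)
          (z : (Fin (d + 2) → ℝ) × ℝ) => ∫⁻ v',
        (S2 p δ).indicator (fun _ => (1 : ℝ≥0∞)) (m, (z, v')) ∂B) hint1.aemeasurable
    _ ≤ ENNReal.ofReal (2 * ρ) * ∫⁻ z in Bx d R ×ˢ Tm R, (∫⁻ v',
        (S0 p δ).indicator (fun _ => (1 : ℝ≥0∞)) (z, v') *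
        QQ A γ L R δ (fun j => z.1 j - v' j) ∂B) := by
        refine mul_le_mul' le_rfl ?_
        apply setLIntegral_mono' ((Bx_meas R).prod (Tm_meas R))
        intro z hz
        have hm : Measurable (Function.uncurry fun (m : Fin (d + 1) → ℝ)
            (v' : Fin (d + 2) → ℝ) => (S2 p δ).indicator (fun _ => (1 : ℝ≥0∞)) (m, (z, v'))) :=
          hchi.comp (by fun_prop : Measurable fun y : (Fin (d + 1) → ℝ) × (Fin (d + 2) → ℝ) =>
            ((y.1, (z, y.2)) :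
              (Fin (d + 1) → ℝ) × (((Fin (d + 2) → ℝ) × ℝ) × (Fin (d + 2) → ℝ))))
        rw [lintegral_lintegral_swap hm.aemeasurable]
        exact lintegral_mono (fun v' => stepC hp μ A γ hA hμ L R δ hL hR hδ z hz.2.1 v')
    _ = ENNReal.ofReal (2 * ρ) * ∫⁻ v, (∫⁻ t, (∫⁻ v',
        (S0 p δ).indicator (fun _ => (1 : ℝ≥0∞)) ((v, t), v') *
        QQ A γ L R δ (fun j => v j - v' j) ∂B) ∂T) ∂B := by
        congr 1
        rw [hZ]
        have hm : Measurable fun y : ((Fin (d + 2) → ℝ) × ℝ) × (Fin (d + 2) → ℝ) =>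
            (S0 p δ).indicator (fun _ => (1 : ℝ≥0∞)) y *
            QQ A γ L R δ (fun j => y.1.1 j - y.2 j) := by
          have h1 : Measurable fun y : ((Fin (d + 2) → ℝ) × ℝ) × (Fin (d + 2) → ℝ) =>
              (fun j => y.1.1 j - y.2 j : Fin (d + 2) → ℝ) := by
            rw [measurable_pi_iff]
            intro j
            exact ((measurable_pi_apply j).comp (measurable_fst.comp measurable_fst)).sub
              ((measurable_pi_apply j).comp measurable_snd)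
          exact hs0.mul (hQm.comp h1)
        have hm2 : Measurable fun z : (Fin (d + 2) → ℝ) × ℝ => ∫⁻ v',
            (S0 p δ).indicator (fun _ => (1 : ℝ≥0∞)) (z, v') *
            QQ A γ L R δ (fun j => z.1 j - v' j) ∂B := hm.lintegral_prod_right'
        exact lintegral_prod _ hm2.aemeasurable
    _ ≤ ENNReal.ofReal (2 * ρ) * ∫⁻ v, (∫⁻ v', QQ A γ L R δ (fun j => v j - v' j) *
        ENNReal.ofReal (8 * R / (1 + 1 / R / δ * |v 0 - v' 0|)) ∂B) ∂B := by
        refine mul_le_mul' le_rfl (lintegral_mono (fun v => ?_))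
        have hm : Measurable (Function.uncurry fun (t : ℝ) (v' : Fin (d + 2) → ℝ) =>
            (S0 p δ).indicator (fun _ => (1 : ℝ≥0∞)) ((v, t), v') *
            QQ A γ L R δ (fun j => v j - v' j)) := by
          have h1 : Measurable fun y : ℝ × (Fin (d + 2) → ℝ) =>
              (fun j => v j - y.2 j : Fin (d + 2) → ℝ) := by
            rw [measurable_pi_iff]
            intro j
            exact measurable_const.sub ((measurable_pi_apply j).comp measurable_snd)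
          have h2 : Measurable fun y : ℝ × (Fin (d + 2) → ℝ) =>
              (((v, y.1), y.2) : ((Fin (d + 2) → ℝ) × ℝ) × (Fin (d + 2) → ℝ)) := by fun_prop
          exact (hs0.comp h2).mul (hQm.comp h1)
        rw [lintegral_lintegral_swap hm.aemeasurable]
        apply lintegral_mono
        intro v'
        simp only
        have h3 : Measurable fun t : ℝ => (S0 p δ).indicator (fun _ => (1 : ℝ≥0∞)) ((v, t), v') :=
          hs0.comp (by fun_prop : Measurable fun t : ℝ =>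
            (((v, t), v') : ((Fin (d + 2) → ℝ) × ℝ) × (Fin (d + 2) → ℝ)))
        rw [lintegral_mul_const _ h3, mul_comm]
        refine mul_le_mul' le_rfl ?_
        refine le_trans ?_ (vol0 (v 0 - v' 0) (p v 0 - p v' 0) δ R hδ hR)
        have h4 : MeasurableSet {t : ℝ | ((v, t), v') ∈ S0 p δ} := by
          have h5 : Measurable fun t : ℝ =>
            (((v, t), v') : ((Fin (d + 2) → ℝ) × ℝ) × (Fin (d + 2) → ℝ)) := by fun_prop
          exact h5 hS0
        calc ∫⁻ t, (S0 p δ).indicator (fun _ => (1 : ℝ≥0∞)) ((v, t), v') ∂T =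
              ∫⁻ t, ({t : ℝ | ((v, t), v') ∈ S0 p δ}).indicator 1 t ∂T := rfl
          _ = volume ({t : ℝ | ((v, t), v') ∈ S0 p δ} ∩ Tm R) := by
              rw [lintegral_indicator_one h4, hT, Measure.restrict_apply h4]
          _ ≤ _ := by
              apply measure_mono
              rintro t ⟨ht1, ht2⟩
              exact ⟨ht2.2, ht1⟩
    _ ≤ ENNReal.ofReal (2 * ρ) * ∫⁻ v, ENNReal.ofReal (C * δ ^ (θ * (d + 2) + γ - d - 1)) ∂B := by
        refine mul_le_mul' le_rfl ?_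
        rw [hB]
        exact setLIntegral_mono' (Bx_meas R) hDE
    _ = ENNReal.ofReal (2 * ρ) * (ENNReal.ofReal (C * δ ^ (θ * (d + 2) + γ - d - 1)) *
          ENNReal.ofReal ((2 * R) ^ (d + 2))) := by
        congr 1
        rw [lintegral_const, hB, Measure.restrict_apply_univ, Bx, volume_pi_pi]
        simp only [Real.volume_Icc]
        rw [ENNReal.ofReal_pow (by positivity)]
        have : R - -R = 2 * R := by ring
        simp [this]
    _ = _ := by
        rw [← ENNReal.ofReal_mul (by positivity), ← ENNReal.ofReal_mul (by positivity)]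
        congr 1
        have h1 : δ ^ (θ * (d + 2) + γ - d - 1) = R ^ (θ * (d + 2) + γ - d - 1) *
            (ρ ^ (θ * (d + 2) + γ - d) / ρ) := by
          rw [hδdef, Real.mul_rpow hR0.le hρ.le, Real.rpow_sub hρ (θ * (d + 2) + γ - d) 1,
            Real.rpow_one]
        rw [h1]
        field_simp

end Pool.Agent.H147R3.KH
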