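import Mathlib
import Pool.Agent.H147R3.KH.Three
set_option autoImplicit false

/-! Generic dilations of Kakeya families: from correlations to Hausdorff dimension. -/

namespace Pool.Agent.H147R3.KH

open MeasureTheory Set Metric
open scoped ENNReal NNReal Topology

variable {d : ℕ}

section mass

variable {Z : Type*} [MeasurableSpace Z] {Y : Type*} [MetricSpace Y]
  [MeasurableSpace Y] [BorelSpace Y]

/-- the potential -/
noncomputable def pot (lam : Measure Z) (Ω : Set Z) (g : Z → Y) (s : ℝ) (z : Z) : ℝ≥0∞ :=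
  ∑' k : ℕ, ENNReal.ofReal (2 ^ (k * s)) *
    lam (Ω ∩ {z' | dist (g z) (g z') ≤ (1 / 2 : ℝ) ^ k})

/-- mass distribution -/
lemma mass (lam : Measure Z) (Ω : Set Z) (hΩ : MeasurableSet Ω) (g : Z → Y) (hg : Measurable g)
    (s : ℝ≥0) (hs : 0 < s) (hpot : Measurable (pot lam Ω g s))
    (hfin : ∀ᵐ z ∂(lam.restrict Ω), pot lam Ω g s z < ⊤) (K : Set Y)
    (hK : lam (Ω ∩ g ⁻¹' K) ≠ 0) : (s : ℝ≥0∞) ≤ dimH K := by
  have hs' : (0 : ℝ) < s := by exact_mod_cast hs
  apply le_dimH_of_hausdorffMeasure_ne_zero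
  intro hzero
  set K' : Set Y := toMeasurable (μH[(s : ℝ)]) K with hK'
  have hK'm : MeasurableSet K' := measurableSet_toMeasurable _ _
  have hK'0 : μH[(s : ℝ)] K' = 0 := by rw [hK', measure_toMeasurable, hzero]
  have hsubK : K ⊆ K' := subset_toMeasurable _ _
  have hG0 : lam (Ω ∩ g ⁻¹' K') ≠ 0 := by
    intro h
    exact hK (measure_mono_null (inter_subset_inter_right _ (preimage_mono hsubK)) h)
  -- a level set of positive measure
  have hex : ∃ M : ℕ, lam ((Ω ∩ g ⁻¹' K') ∩ {z | pot lam Ω g s z ≤ M}) ≠ 0 := by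
    by_contra hcon
    push Not at hcon
    apply hG0
    have h1 : Ω ∩ g ⁻¹' K' ⊆ (⋃ M : ℕ, (Ω ∩ g ⁻¹' K') ∩ {z | pot lam Ω g s z ≤ M}) ∪
        (Ω ∩ {z | ¬ pot lam Ω g s z < ⊤}) := by
      intro z hz
      by_cases hzt : pot lam Ω g s z < ⊤
      · left
        obtain ⟨M, hM⟩ := ENNReal.exists_nat_gt hzt.ne
        exact mem_iUnion.2 ⟨M, hz, hM.le⟩
      · right
        exact ⟨hz.1, hzt⟩
    refine measure_mono_null h1 (measure_union_null (measure_iUnion_null hcon) ?_)
    rw [ae_restrict_iff' hΩ] at hfin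
    rw [ae_iff] at hfin
    refine measure_mono_null ?_ hfin
    intro z hz
    simp only [mem_ofPred_eq, Classical.not_imp]
    exact hz
  obtain ⟨M, hM⟩ := hex
  set G : Set Z := (Ω ∩ g ⁻¹' K') ∩ {z | pot lam Ω g s z ≤ M} with hG
  have hGm : MeasurableSet G :=
    (hΩ.inter (hg hK'm)).inter (measurableSet_le hpot measurable_const)
  set ν : Measure Y := Measure.map g (lam.restrict G) with hν
  set C : ℝ≥0∞ := ENNReal.ofReal ((M + 1) * 2 ^ (s : ℝ)) with hC
  have hC0 : C ≠ 0 := by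
    rw [hC]
    exact (ENNReal.ofReal_pos.2 (by positivity)).ne'
  have hCt : C ≠ ⊤ := ENNReal.ofReal_ne_top
  have hclosed : ∀ U : Set Y, IsClosed U → ∀ r : ℝ, 0 < r → r ≤ 1 → ediam U ≤ ENNReal.ofReal r →
      ν U ≤ C * ENNReal.ofReal (r ^ (s : ℝ)) := by
    intro U hU r hr hr1 hdiam
    rw [hν, Measure.map_apply hg hU.measurableSet, Measure.restrict_apply (hg hU.measurableSet)]
    rcases Set.eq_empty_or_nonempty (g ⁻¹' U ∩ G) with h | ⟨z₀, hz₀U, hz₀G⟩
    · rw [h]
      simp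
    obtain ⟨k, hk1, hk2⟩ := exists_nat_pow_near_of_lt_one hr hr1 (by norm_num : (0:ℝ) < 1 / 2)
      (by norm_num)
    have hsub : g ⁻¹' U ∩ G ⊆ Ω ∩ {z' | dist (g z₀) (g z') ≤ (1 / 2 : ℝ) ^ k} := by
      rintro z' ⟨hz'U, hz'G⟩
      refine ⟨hz'G.1.1, ?_⟩
      have h1 : edist (g z₀) (g z') ≤ ENNReal.ofReal r :=
        (edist_le_ediam_of_mem (show g z₀ ∈ U from hz₀U) (show g z' ∈ U from hz'U)).trans hdiam
      rw [edist_dist, ENNReal.ofReal_le_ofReal_iff hr.le] at h1
      exact h1.trans hk2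
    have hterm : ENNReal.ofReal (2 ^ (k * (s : ℝ))) *
        lam (Ω ∩ {z' | dist (g z₀) (g z') ≤ (1 / 2 : ℝ) ^ k}) ≤ M :=
      (ENNReal.le_tsum k).trans hz₀G.2
    have h2k : (0 : ℝ) < 2 ^ (k * (s : ℝ)) := by positivity
    have h3 : lam (Ω ∩ {z' | dist (g z₀) (g z') ≤ (1 / 2 : ℝ) ^ k}) ≤
        ENNReal.ofReal (M / 2 ^ (k * (s : ℝ))) := by
      rw [ENNReal.ofReal_div_of_pos h2k, ENNReal.le_div_iff_mul_le
        (Or.inl (ENNReal.ofReal_pos.2 h2k).ne') (Or.inl ENNReal.ofReal_ne_top), mul_comm]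
      simpa using hterm
    refine (measure_mono hsub).trans (h3.trans ?_)
    rw [hC, ← ENNReal.ofReal_mul (by positivity)]
    apply ENNReal.ofReal_le_ofReal
    have h4 : ((1 / 2 : ℝ) ^ k) ≤ 2 * r := by
      rw [pow_succ] at hk1
      linarith
    have h5 : (1 : ℝ) / 2 ^ (k * (s : ℝ)) ≤ (2 * r) ^ (s : ℝ) := by
      calc (1 : ℝ) / 2 ^ (k * (s : ℝ)) = ((1 / 2 : ℝ) ^ k) ^ (s : ℝ) := by
            rw [← Real.rpow_natCast, ← Real.rpow_mul (by norm_num), Real.div_rpow (by norm_num)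
              (by norm_num), Real.one_rpow]
        _ ≤ _ := by gcongr
    calc (M : ℝ) / 2 ^ (k * (s : ℝ)) = M * (1 / 2 ^ (k * (s : ℝ))) := by ring
      _ ≤ (M + 1) * (2 * r) ^ (s : ℝ) := by
          gcongr
          linarith
      _ = _ := by
          rw [Real.mul_rpow (by norm_num) hr.le]
          ring
  have hall : ∀ U : Set Y, ediam U ≤ 1 → (C⁻¹ • ν) U ≤ ediam U ^ (s : ℝ) := by
    intro U hU
    have h1 : ν U ≤ C * ediam U ^ (s : ℝ) := by
      have hcl : ediam (closure U) = ediam U := ediam_closure U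
      rcases eq_or_ne (ediam U) 0 with h0 | h0
      · have h2 : ∀ r : ℝ, 0 < r → r ≤ 1 → ν U ≤ C * ENNReal.ofReal (r ^ (s : ℝ)) := by
          intro r hr hr1
          refine (measure_mono subset_closure).trans (hclosed _ isClosed_closure r hr hr1 ?_)
          rw [hcl, h0]
          exact zero_le
        have h3 : Filter.Tendsto (fun n : ℕ => C * ENNReal.ofReal (((1 : ℝ) / (n + 1)) ^ (s : ℝ)))
            Filter.atTop (𝓝 (C * ENNReal.ofReal ((0 : ℝ) ^ (s : ℝ)))) := by
          apply ENNReal.Tendsto.const_mul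
          · apply ENNReal.tendsto_ofReal
            have h4 : Filter.Tendsto (fun n : ℕ => (1 : ℝ) / (n + 1)) Filter.atTop (𝓝 0) :=
              tendsto_one_div_add_atTop_nhds_zero_nat
            exact h4.rpow_const (Or.inr hs'.le)
          · right
            exact hCt
        have h5 := ge_of_tendsto h3 (Filter.Eventually.of_forall (fun n : ℕ => h2 (1 / (n + 1))
          (by positivity) (by
            rw [div_le_one (by positivity)]
            have : (0 : ℝ) ≤ n := Nat.cast_nonneg n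
            linarith)))
        rw [Real.zero_rpow hs'.ne', ENNReal.ofReal_zero, mul_zero] at h5
        exact h5.trans zero_le
      · have ht : ediam U ≠ ⊤ := (hU.trans_lt ENNReal.one_lt_top).ne
        have hr0 : 0 < (ediam U).toReal := ENNReal.toReal_pos h0 ht
        have hr1 : (ediam U).toReal ≤ 1 := by
          have := ENNReal.toReal_mono ENNReal.one_ne_top hU
          simpa using this
        have h2 := (measure_mono subset_closure).trans
          (hclosed (closure U) isClosed_closure (ediam U).toReal hr0 hr1 (by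
            rw [hcl, ENNReal.ofReal_toReal ht]))
        rw [← ENNReal.ofReal_rpow_of_pos hr0, ENNReal.ofReal_toReal ht] at h2
        exact h2
    rw [Measure.smul_apply, smul_eq_mul]
    calc C⁻¹ * ν U ≤ C⁻¹ * (C * ediam U ^ (s : ℝ)) := mul_le_mul' le_rfl h1
      _ = _ := by rw [← mul_assoc, ENNReal.inv_mul_cancel hC0 hCt, one_mul]
  have hle := Measure.le_hausdorffMeasure (s : ℝ) (C⁻¹ • ν) 1 one_pos hall
  have h6 : (C⁻¹ • ν) K' = 0 := le_antisymm ((hle K').trans hK'0.le) zero_le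
  rw [Measure.smul_apply, smul_eq_mul, mul_eq_zero] at h6
  rcases h6 with h6 | h6
  · exact hCt (ENNReal.inv_eq_zero.1 h6)
  · rw [hν, Measure.map_apply hg hK'm, Measure.restrict_apply (hg hK'm)] at h6
    apply hM
    refine measure_mono_null ?_ h6
    intro z hz
    exact ⟨hz.1.2, hz⟩

end mass

end Pool.Agent.H147R3.KH
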