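import Mathlib
import Pool.Agent.H147R3.KH.Four
set_option autoImplicit false

/-! Generic dilations of Kakeya families: assembly. -/

namespace Pool.Agent.H147R3.KH

open MeasureTheory Set Metric
open scoped ENNReal NNReal Topology

variable {d : ℕ}

lemma gam_jm {p : (Fin (d + 2) → ℝ) → (Fin (d + 2) → ℝ)} (hp : Measurable p) :
    Measurable fun y : (Fin (d + 1) → ℝ) × ((Fin (d + 2) → ℝ) × ℝ) => gam p y.1 y.2 := by
  unfold gam
  refine Measurable.prodMk ?_ (measurable_snd.comp measurable_snd)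
  rw [measurable_pi_iff]
  intro j
  have e1 : Measurable fun y : (Fin (d + 1) → ℝ) × ((Fin (d + 2) → ℝ) × ℝ) =>
      (Fin.cons 1 y.1 : Fin (d + 2) → ℝ) j := by
    refine Fin.cases ?_ (fun i => ?_) j
    · simp only [Fin.cons_zero]
      exact measurable_const
    · simp only [Fin.cons_succ]
      exact (measurable_pi_apply i).comp measurable_fst
  have e2 : Measurable fun y : (Fin (d + 1) → ℝ) × ((Fin (d + 2) → ℝ) × ℝ) => p y.2.1 j :=
    (measurable_pi_apply j).comp (hp.comp (measurable_fst.comp measurable_snd))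
  have e3 : Measurable fun y : (Fin (d + 1) → ℝ) × ((Fin (d + 2) → ℝ) × ℝ) => y.2.1 j :=
    (measurable_pi_apply j).comp (measurable_fst.comp measurable_snd)
  exact (e1.mul e2).add ((measurable_snd.comp measurable_snd).mul e3)

lemma gam_m {p : (Fin (d + 2) → ℝ) → (Fin (d + 2) → ℝ)} (hp : Measurable p)
    (m : Fin (d + 1) → ℝ) : Measurable (gam p m) :=
  (gam_jm hp).comp (measurable_const.prodMk measurable_id)

lemma corr_jm {p : (Fin (d + 2) → ℝ) → (Fin (d + 2) → ℝ)} (hp : Measurable p) (R ρ : ℝ) :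
    Measurable fun y : (Fin (d + 1) → ℝ) × ((Fin (d + 2) → ℝ) × ℝ) =>
      volume ((Bx d R ×ˢ Tm R) ∩ {z' | dist (gam p y.1 y.2) (gam p y.1 z') ≤ ρ}) := by
  have hW : MeasurableSet {w : ((Fin (d + 1) → ℝ) × ((Fin (d + 2) → ℝ) × ℝ)) ×
      ((Fin (d + 2) → ℝ) × ℝ) | w.2 ∈ Bx d R ×ˢ Tm R ∧
        dist (gam p w.1.1 w.1.2) (gam p w.1.1 w.2) ≤ ρ} := by
    have h1 : Measurable fun w : ((Fin (d + 1) → ℝ) × ((Fin (d + 2) → ℝ) × ℝ)) ×
      ((Fin (d + 2) → ℝ) × ℝ) => gam p w.1.1 w.1.2 :=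
      (gam_jm hp).comp measurable_fst
    have h2 : Measurable fun w : ((Fin (d + 1) → ℝ) × ((Fin (d + 2) → ℝ) × ℝ)) ×
      ((Fin (d + 2) → ℝ) × ℝ) => gam p w.1.1 w.2 :=
      (gam_jm hp).comp ((measurable_fst.comp measurable_fst).prodMk measurable_snd)
    exact (measurable_snd ((Bx_meas R).prod (Tm_meas R))).inter
      (measurableSet_le (h1.dist h2) measurable_const)
  exact measurable_measure_prodMk_left (ν := (volume : Measure ((Fin (d + 2) → ℝ) × ℝ))) hW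

/-- the correlation at one scale -/
noncomputable def corr (p : (Fin (d + 2) → ℝ) → (Fin (d + 2) → ℝ)) (R ρ : ℝ)
    (m : Fin (d + 1) → ℝ) (z : (Fin (d + 2) → ℝ) × ℝ) : ℝ≥0∞ :=
  volume ((Bx d R ×ˢ Tm R) ∩ {z' | dist (gam p m z) (gam p m z') ≤ ρ})

lemma corr_unc {p : (Fin (d + 2) → ℝ) → (Fin (d + 2) → ℝ)} (hp : Measurable p) (R ρ : ℝ) :
    Measurable (Function.uncurry (corr p R ρ)) := corr_jm hp R ρ

lemma corr_m {p : (Fin (d + 2) → ℝ) → (Fin (d + 2) → ℝ)} (hp : Measurable p) (R ρ : ℝ)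
    (m : Fin (d + 1) → ℝ) : Measurable (corr p R ρ m) := (corr_unc hp R ρ).of_uncurry_left

lemma corr_i {p : (Fin (d + 2) → ℝ) → (Fin (d + 2) → ℝ)} (hp : Measurable p) (R ρ : ℝ) :
    Measurable fun m : Fin (d + 1) → ℝ => ∫⁻ z in Bx d R ×ˢ Tm R, corr p R ρ m z :=
  Measurable.lintegral_prod_right (corr_unc hp R ρ)

/-- the potential for the family -/
noncomputable def pt (p : (Fin (d + 2) → ℝ) → (Fin (d + 2) → ℝ)) (R s : ℝ)
    (m : Fin (d + 1) → ℝ) (z : (Fin (d + 2) → ℝ) × ℝ) : ℝ≥0∞ :=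
  pot volume (Bx d R ×ˢ Tm R) (gam p m) s z

lemma pt_eq (p : (Fin (d + 2) → ℝ) → (Fin (d + 2) → ℝ)) (R s : ℝ)
    (m : Fin (d + 1) → ℝ) (z : (Fin (d + 2) → ℝ) × ℝ) :
    pt p R s m z = ∑' k : ℕ, ENNReal.ofReal (2 ^ (k * s)) * corr p R ((1 / 2 : ℝ) ^ k) m z := rfl

lemma pt_unc {p : (Fin (d + 2) → ℝ) → (Fin (d + 2) → ℝ)} (hp : Measurable p) (R s : ℝ) :
    Measurable (Function.uncurry (pt p R s)) := by
  have h1 : Function.uncurry (pt p R s) = fun y => ∑' k : ℕ, ENNReal.ofReal (2 ^ (k * s)) *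
      Function.uncurry (corr p R ((1 / 2 : ℝ) ^ k)) y := by
    ext y
    exact pt_eq p R s y.1 y.2
  rw [h1]
  exact Measurable.tsum (fun k => (corr_unc hp R ((1 / 2 : ℝ) ^ k)).const_mul _)

lemma pt_m {p : (Fin (d + 2) → ℝ) → (Fin (d + 2) → ℝ)} (hp : Measurable p) (R s : ℝ)
    (m : Fin (d + 1) → ℝ) : Measurable (pt p R s m) := (pt_unc hp R s).of_uncurry_left

lemma pt_i {p : (Fin (d + 2) → ℝ) → (Fin (d + 2) → ℝ)} (hp : Measurable p) (R s : ℝ) :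
    Measurable fun m : Fin (d + 1) → ℝ => ∫⁻ z in Bx d R ×ˢ Tm R, pt p R s m z :=
  Measurable.lintegral_prod_right (pt_unc hp R s)

lemma pt_int {p : (Fin (d + 2) → ℝ) → (Fin (d + 2) → ℝ)} (hp : Measurable p) (R s : ℝ)
    (m : Fin (d + 1) → ℝ) : ∫⁻ z in Bx d R ×ˢ Tm R, pt p R s m z =
      ∑' k : ℕ, ENNReal.ofReal (2 ^ (k * s)) * ∫⁻ z in Bx d R ×ˢ Tm R,
        corr p R ((1 / 2 : ℝ) ^ k) m z := by
  simp only [pt_eq]
  rw [lintegral_tsum (fun k => ((corr_m hp R ((1 / 2 : ℝ) ^ k) m).const_mul _).aemeasurable)]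
  congr 1
  ext k
  rw [lintegral_const_mul _ (corr_m hp R ((1 / 2 : ℝ) ^ k) m)]

theorem ae_fin {p : (Fin (d + 2) → ℝ) → (Fin (d + 2) → ℝ)} (hp : Measurable p)
    (μ : Measure (Fin (d + 1) → ℝ)) [SFinite μ] (A γ : ℝ) (hA : 0 ≤ A) (hγ : γ ≤ d + 1)
    (hμ : ∀ x : Fin (d + 1) → ℝ, ∀ r : ℝ, 0 < r →
      μ (closedBall x r) ≤ ENNReal.ofReal (A * r ^ γ))
    (L R s : ℝ) (hL : 0 < L) (hR : 1 ≤ R) (hs : s < 2 + γ) :
    ∀ᵐ m ∂(μ.restrict (closedBall 0 L)), ∀ᵐ z ∂(volume.restrict (Bx d R ×ˢ Tm R)),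
      pot volume (Bx d R ×ˢ Tm R) (gam p m) s z < ⊤ := by
  have hd : (0 : ℝ) ≤ d := Nat.cast_nonneg d
  set θ : ℝ := 1 - (2 + γ - s) / (2 * (d + 2)) with hθ
  have hθ1 : θ < 1 := by
    have : 0 < (2 + γ - s) / (2 * ((d : ℝ) + 2)) := div_pos (by linarith) (by linarith)
    rw [hθ]
    linarith
  have hθs : θ * (d + 2) + γ - d = (2 + γ + s) / 2 := by
    rw [hθ]
    field_simp
    ring
  obtain ⟨C, hC0, hC⟩ := key hp μ A γ hA hγ hμ L R θ hL hR hθ1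
  rw [hθs] at hC
  have hfin : ∫⁻ m in closedBall 0 L, (∫⁻ z in Bx d R ×ˢ Tm R, pt p R s m z) ∂μ ≠ ⊤ := by
    simp only [pt_int hp]
    rw [lintegral_tsum (fun k => ((corr_i hp R ((1 / 2 : ℝ) ^ k)).const_mul _).aemeasurable)]
    have h2 : ∀ k : ℕ, ∫⁻ m in closedBall 0 L, (ENNReal.ofReal (2 ^ (k * s)) *
        ∫⁻ z in Bx d R ×ˢ Tm R, corr p R ((1 / 2 : ℝ) ^ k) m z) ∂μ ≤
        ENNReal.ofReal (C * ((2 : ℝ) ^ (-((2 + γ - s) / 2))) ^ k) := by
      intro k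
      rw [lintegral_const_mul _ (corr_i hp R ((1 / 2 : ℝ) ^ k))]
      refine (mul_le_mul' le_rfl (hC ((1 / 2 : ℝ) ^ k) (by positivity)
        (pow_le_one₀ (by norm_num) (by norm_num)))).trans (le_of_eq ?_)
      rw [← ENNReal.ofReal_mul (by positivity)]
      congr 1
      have e1 : ((1 / 2 : ℝ) ^ k) ^ ((2 + γ + s) / 2) = 2 ^ (-(k * ((2 + γ + s) / 2))) := by
        rw [← Real.rpow_natCast, ← Real.rpow_mul (by norm_num), one_div, Real.inv_rpow (by norm_num),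
          ← Real.rpow_neg (by norm_num)]
      have e2 : ((2 : ℝ) ^ (-((2 + γ - s) / 2))) ^ k = 2 ^ (-((2 + γ - s) / 2) * k) := by
        rw [Real.rpow_mul (by norm_num), Real.rpow_natCast]
      rw [e1, e2]
      have e3 : (2 : ℝ) ^ (k * s) * (C * 2 ^ (-(k * ((2 + γ + s) / 2)))) =
          C * (2 ^ (k * s) * 2 ^ (-(k * ((2 + γ + s) / 2)))) := by ring
      rw [e3, ← Real.rpow_add (by norm_num)]
      congr 2
      ring
    refine ne_top_of_le_ne_top ?_ (ENNReal.tsum_le_tsum h2)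
    have hr0 : (0 : ℝ) ≤ (2 : ℝ) ^ (-((2 + γ - s) / 2)) := by positivity
    have hr1 : (2 : ℝ) ^ (-((2 + γ - s) / 2)) < 1 :=
      Real.rpow_lt_one_of_one_lt_of_neg (by norm_num) (by linarith)
    have hsum : Summable fun k : ℕ => C * ((2 : ℝ) ^ (-((2 + γ - s) / 2))) ^ k :=
      (summable_geometric_of_lt_one hr0 hr1).mul_left C
    exact hsum.tsum_ofReal_ne_top
  have h3 := ae_lt_top (pt_i hp R s) hfin
  filter_upwards [h3] with m hm
  exact ae_lt_top (pt_m hp R s m) hm.ne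

lemma sig (k : ℕ) (μ : Measure (Fin k → ℝ)) (A γ : ℝ)
    (hμ : ∀ x : Fin k → ℝ, ∀ r : ℝ, 0 < r →
      μ (closedBall x r) ≤ ENNReal.ofReal (A * r ^ γ)) : SFinite μ := by
  have : IsLocallyFiniteMeasure μ := ⟨fun x => ⟨closedBall x 1, closedBall_mem_nhds x one_pos,
    (hμ x 1 one_pos).trans_lt ENNReal.ofReal_lt_top⟩⟩
  infer_instance

theorem main (A γ : ℝ) (hA : 0 ≤ A) (hγ : γ ≤ d + 1) (μ : Measure (Fin (d + 1) → ℝ))
    (hμ : ∀ x : Fin (d + 1) → ℝ, ∀ r : ℝ, 0 < r →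
      μ (closedBall x r) ≤ ENNReal.ofReal (A * r ^ γ))
    (p : (Fin (d + 2) → ℝ) → (Fin (d + 2) → ℝ)) (hp : Measurable p) :
    ∀ᵐ m ∂μ, ∀ K : Set ((Fin (d + 2) → ℝ) × ℝ), volume {z | gam p m z ∈ K} ≠ 0 →
      ENNReal.ofReal (2 + γ) ≤ dimH K := by
  have hsf := sig (d + 1) μ A γ hμ
  -- all the good events
  have hall : ∀ᵐ m ∂μ, ∀ n i : ℕ, m ∈ closedBall (0 : Fin (d + 1) → ℝ) ((n : ℝ) + 1) →
      ∀ᵐ z ∂(volume.restrict (Bx d ((n : ℝ) + 1) ×ˢ Tm ((n : ℝ) + 1))),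
      pot volume (Bx d ((n : ℝ) + 1) ×ˢ Tm ((n : ℝ) + 1)) (gam p m)
        (2 + γ - 1 / ((i : ℝ) + 1)) z < ⊤ := by
    rw [ae_all_iff]
    intro n
    rw [ae_all_iff]
    intro i
    have hn : (0 : ℝ) ≤ n := Nat.cast_nonneg n
    have hi : (0 : ℝ) < 1 / ((i : ℝ) + 1) := by positivity
    have h1 := ae_fin hp μ A γ hA hγ hμ ((n : ℝ) + 1) ((n : ℝ) + 1) (2 + γ - 1 / ((i : ℝ) + 1))
      (by linarith) (by linarith) (by linarith)
    rw [ae_restrict_iff' measurableSet_closedBall] at h1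
    exact h1
  filter_upwards [hall] with m hm K hK
  obtain ⟨n₀, hn₀⟩ := exists_nat_ge ‖m‖
  have hmem : ∀ n : ℕ, n₀ ≤ n → m ∈ closedBall (0 : Fin (d + 1) → ℝ) ((n : ℝ) + 1) := by
    intro n hn
    rw [mem_closedBall, dist_zero_right]
    have : (n₀ : ℝ) ≤ n := by exact_mod_cast hn
    linarith
  -- a compact piece of positive measure
  have hex : ∃ n : ℕ, n₀ ≤ n ∧
      volume ((Bx d ((n : ℝ) + 1) ×ˢ Tm ((n : ℝ) + 1)) ∩ (gam p m) ⁻¹' K) ≠ 0 := by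
    by_contra hcon
    push Not at hcon
    apply hK
    have hsub : {z | gam p m z ∈ K} ⊆ (⋃ n : ℕ, (Bx d (((n + n₀ : ℕ) : ℝ) + 1) ×ˢ
        Tm (((n + n₀ : ℕ) : ℝ) + 1)) ∩ (gam p m) ⁻¹' K) ∪ (univ ×ˢ {0}) := by
      rintro ⟨v, t⟩ hz
      rcases eq_or_ne t 0 with ht | ht
      · right
        exact ⟨mem_univ _, ht⟩
      · left
        have ht' : 0 < |t| := abs_pos.2 ht
        obtain ⟨n, hn⟩ := exists_nat_ge (max (‖v‖) (max |t| (1 / |t|)))
        have h1 : ‖v‖ ≤ n := (le_max_left _ _).trans hn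
        have h2 : |t| ≤ n := (le_max_left _ _).trans ((le_max_right _ _).trans hn)
        have h3 : 1 / |t| ≤ n := (le_max_right _ _).trans ((le_max_right _ _).trans hn)
        have hnn : (n : ℝ) ≤ ((n + n₀ : ℕ) : ℝ) := by exact_mod_cast Nat.le_add_right n n₀
        refine mem_iUnion.2 ⟨n, ⟨⟨?_, ?_, ?_⟩, hz⟩⟩
        · intro j _
          have h4 := norm_le_pi_norm v j
          rw [Real.norm_eq_abs] at h4
          have h5 := abs_le.1 (h4.trans h1)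
          constructor <;> linarith [h5.1, h5.2]
        · simp only
          have h6 : 1 / |t| ≤ ((n + n₀ : ℕ) : ℝ) + 1 := by linarith
          rw [div_le_iff₀ (by positivity)]
          rw [div_le_iff₀ ht'] at h6
          linarith
        · simp only
          linarith
    refine measure_mono_null hsub (measure_union_null (measure_iUnion_null (fun n =>
      hcon (n + n₀) (Nat.le_add_left _ _))) ?_)
    rw [Measure.volume_eq_prod, Measure.prod_prod]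
    simp
  obtain ⟨n, hn, hpos⟩ := hex
  -- dimension bounds
  have hbound : ∀ i : ℕ, ENNReal.ofReal (2 + γ - 1 / ((i : ℝ) + 1)) ≤ dimH K := by
    intro i
    rcases le_or_gt (2 + γ - 1 / ((i : ℝ) + 1)) 0 with h0 | h0
    · rw [ENNReal.ofReal_of_nonpos h0]
      exact zero_le
    · have h1 := hm n i (hmem n hn)
      set s : ℝ≥0 := (2 + γ - 1 / ((i : ℝ) + 1)).toNNReal with hs
      have hsr : (s : ℝ) = 2 + γ - 1 / ((i : ℝ) + 1) := Real.coe_toNNReal _ h0.le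
      have h2 : Measurable (pt p ((n : ℝ) + 1) (s : ℝ) m) := pt_m hp ((n : ℝ) + 1) (s : ℝ) m
      have h3 := mass volume (Bx d ((n : ℝ) + 1) ×ˢ Tm ((n : ℝ) + 1))
        ((Bx_meas _).prod (Tm_meas _)) (gam p m) (gam_m hp m) s (by
          rw [hs]
          exact Real.toNNReal_pos.2 h0) h2 (by rw [hsr]; exact h1) K hpos
      exact h3
  have hlim : Filter.Tendsto (fun i : ℕ => ENNReal.ofReal (2 + γ - 1 / ((i : ℝ) + 1)))
      Filter.atTop (𝓝 (ENNReal.ofReal (2 + γ - 0))) := by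
    apply ENNReal.tendsto_ofReal
    exact tendsto_const_nhds.sub tendsto_one_div_add_atTop_nhds_zero_nat
  rw [sub_zero] at hlim
  exact le_of_tendsto' hlim hbound

end Pool.Agent.H147R3.KH
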